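import Pool.Agent.Q298.EF.IsoGeo
import Pool.Agent.Q298.IS.Num

/-!
# Abundance for isotrivial fibrations over the image of a powerful linear system

Let `X` be a projective variety with terminal singularities (for instance a minimal variety or a
manifold) of dimension `d + e`, and `|V|` a linear system on `X` without fixed components, of
dimension `n = d + k`, whose rational map `X ⇢ ℙⁿ` has an image `Y` of dimension `d ≥ 1`; `Y` may be
any nondegenerate variety of dimension `d`, for instance rational. Suppose:

* (the members) `D i` (`i < q`) are finitely many members of `|V|`, in arbitrary position, which span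
  `V`, and `V` is not the direct sum of two nonzero subspaces such that each `D i` belongs to one of
  them; at every prime divisor `P` of `X` which is a component of some `D i`, some `D i'` has the
  multiplicity at least `s`, where `2 s > R (k + 1) (k + 2)` with `R = n + 2`, or `R = n + 1` if
  there are at least `n + 3` different members;
* (the fibres) `X ⇢ Y` is isotrivial: for some variety `Y''` with a generically finite map to `Y`,
  ramified anywhere, the main component `X''` of the fibre product `X ×_Y Y''` (its function field is
  `K'' = K(α)`, where `α` is algebraic over the function field of `Y`) is birational to a product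
  `F₀ × Y'`, where `F₀` is an arbitrary projective manifold of dimension `e` and `Y'` is generically
  finite over `Y''` (its function field is the algebraic closure of the one of `Y` in `K''`).

Then, for every `a ≥ 0`,

* if `κ(F₀) ≥ a` then `κ(X) ≥ d + a`;
* if `ν(F₀) ≤ a` then `ν(X) ≤ d + a`.

So `κ(F₀) = ν(F₀) ≥ 0` implies `κ(X) = ν(X) = d + κ(F₀)`: the abundance conjecture for `X`, in the
form `κ = ν`, follows from the one for `F₀`. It holds for instance if `F₀` is of dimension at most
three and not uniruled. If `F₀` is uniruled then `X` is uniruled, hence not minimal. Here the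
dimensions of `X` and `Y` are arbitrary, and the fibration may have arbitrary singular fibres.

The function-field language of the starting repository is used. `K` is the function field of `X`;
the prime divisors of `X` are places `P` of `K` (`Place`, `Divisorial`), `P.ord` is the order along
`P`, and `X` is given by the set of its prime divisors. The linear system is given by the finite
dimensional space `V` of rational functions: if `a` is the minimum of the orders at `P` of the
members of `V` then the multiplicity of `P` in the divisor of the system which is given by `f ∈ V` is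
`P.ord f - a`. A section of `N K_X` is an `N`-canonical form `ω` (`IsPluri`), a function of `d + e`
rational vector fields, whose value on vector fields that are regular at `P` is regular at `P`, for
all prime divisors `P` of `X`. For `F₀`, with the function field `M`, all divisorial places of `M`
are taken: these are the sections of `N K` on a smooth projective model. `NumLe ℂ K w (fun _ => False)
b` says that `ν ≤ b` for the smooth models of `K`, a field of transcendence degree `w`: for every
divisor `A`, given as the polar divisor of finitely many rational functions on a smooth model, there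
is a constant `C` with `h⁰(m K + A) ≤ C m ^ b` for all `m ≥ 1`.

Proof. The lower bound is the one of `Pool.Agent.Results.MP_e06174_ag.IsotrivialFibrations`. The upper
bound (`Pool.Agent.Q298.IS`) is an inequality for the numerical dimension of a product, which is
proved for arbitrary function fields. Let `K' = M F`, where `F` is the function field of `Y'`. A
valuation `u` of `M` has a Gauss extension to `K'`, which is trivial on `F`; it is divisorial if `u`
is (`UU_div`): the residue field contains the one of `u` and `F`, linearly disjoint. So, if a section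
of `m K + A` on `F₀ × Y'` is in the ring generated by `M` and `F`, in a frame of products, then its
coefficients with respect to linearly independent functions on `Y'` are sections of `m K + A'` on
`F₀`, where `A'` depends on `A` only (`desc`). All sections are in this ring up to a fixed factor
(`clear_good`): they are regular at the divisors over the divisors of the affine space over `F` whose
equations divide no polynomial over `ℂ`, and the traces of such functions have denominators in `M`.
So the sections span a space over `F` of dimension at most `C m ^ a` (`iso_count`), and the forms in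
such a space are counted by the degrees with respect to the `d` coordinates of `Y'`
(`Pool.Agent.Y174.count_rel`).
-/

set_option autoImplicit false

open FF Pool.Agent.W602.GT Pool.Agent.W619.TW

namespace Pool.Agent.Results.MP_5ff3c6_ag.IsotrivialAbundance

/-- The function field of the image of the rational map which is given by the linear system `V`: the
field generated by the quotients of the members. -/
noncomputable def ImageField {K : Type} [Field K] [Algebra ℂ K] (V : Submodule ℂ K) :
    IntermediateField ℂ K :=
  IntermediateField.adjoin ℂ {y : K | ∃ f ∈ V, ∃ g ∈ V, y = f / g}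

/-- `V` is the direct sum of two nonzero subspaces such that each `φ i` belongs to one of them. -/
def Splits {q : ℕ} {K : Type} [Field K] [Algebra ℂ K] (V : Submodule ℂ K) (φ : Fin q → K) : Prop :=
  ∃ V1 V2 : Submodule ℂ K, V1 ≠ ⊥ ∧ V2 ≠ ⊥ ∧ Disjoint V1 V2 ∧ V1 ⊔ V2 = V ∧
    ∀ i, φ i ∈ V1 ∨ φ i ∈ V2

/-- There are `r` members `φ i` of which no two are proportional. -/
def Different (r : ℕ) {q : ℕ} {K : Type} [Field K] [Algebra ℂ K] (φ : Fin q → K) : Prop :=
  ∃ τ : Fin r → Fin q, ∀ i j, i ≠ j → ∀ t : ℂ, φ (τ i) ≠ t • φ (τ j)

/-- The condition on the multiplicities, on a variety `X` of dimension `w`: if the prime divisor `P`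
of `X` is a component of one of the divisors `D i` (the order of `φ i` at `P` is not the minimum `a`
of the orders of the members of `V`), then some `D i` has multiplicity at least `s` at `P`. -/
def Multiplicities (w : ℕ) {q : ℕ} {K : Type} [Field K] [Algebra ℂ K] (V : Submodule ℂ K)
    (φ : Fin q → K) (X : Set (Place ℂ K)) (s : ℕ) : Prop :=
  ∀ P ∈ X, Divisorial w P → ∀ a : ℤ, (∀ f ∈ V, f = 0 ∨ a ≤ P.ord f) →
    (∃ f ∈ V, f ≠ 0 ∧ P.ord f = a) → (∃ i, P.ord (φ i) ≠ a) → ∃ i, a + s ≤ P.ord (φ i)

/-- The image of the subfield `L` of `K` in the extension `K'`. -/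
noncomputable def Up {K : Type} (K' : Type) [Field K] [Field K'] [Algebra ℂ K] [Algebra ℂ K']
    [Algebra K K'] [IsScalarTower ℂ K K'] (L : IntermediateField ℂ K) : IntermediateField ℂ K' :=
  L.map (IsScalarTower.toAlgHom ℂ K K')

/-- `ω` is a section of `N K_X`, where `X` of dimension `w` is given by the set of its prime divisors:
an `N`-canonical form whose values on vector fields which are regular at `P` are regular at `P`, for
all prime divisors `P` of `X`. -/
def IsSection {K : Type} [Field K] [Algebra ℂ K] (w : ℕ) (X : Set (Place ℂ K)) (N : ℕ)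
    (ω : (Fin w → Derivation ℂ K K) → K) : Prop :=
  IsPluri N ω ∧ ∀ P ∈ X, Divisorial w P → ∀ D : Fin w → Derivation ℂ K K,
    (∀ i, DerReg P (D i)) → P.Reg (ω D)

/-- `κ (X) ≥ κ`: some positive multiple of `K_X` has sections with `κ` algebraically independent
ratios (a nonzero section, if `κ = 0`). -/
def KodairaGe {K : Type} [Field K] [Algebra ℂ K] (w : ℕ) (X : Set (Place ℂ K)) (κ : ℕ) : Prop :=
  ∃ N : ℕ, 0 < N ∧ ∃ ω : Fin (κ + 1) → (Fin w → Derivation ℂ K K) → K,
    (∀ j, IsSection w X N (ω j)) ∧
    ∃ D, ω 0 D ≠ 0 ∧ AlgebraicIndependent ℂ (fun i : Fin κ => ω i.succ D / ω 0 D)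

/-- **Abundance for isotrivial fibrations.** Let `K` be the function field of a projective variety `X`
with terminal singularities of dimension `d + e`, `V` a linear system of dimension `d + k` on `X`
whose rational map has an image `Y` of dimension `d ≥ 1`; `φ i` nonzero members which span `V`, such
that `V` does not split into a direct sum, `R = d + k + 2`, or `R = d + k + 1` if there are
`d + k + 3` different members, and `s` a number with `2 s > R (k + 1) (k + 2)` for which the
condition on the multiplicities holds. Let `K' = K (α)`, where `α` is algebraic over the function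
field of `Y`, be generated by the elements which are algebraic over the function field of `Y` and by
the function field `M` of a variety `F₀` of dimension `e`. Then `κ (F₀) ≥ a` implies
`κ (X) ≥ d + a`, and `ν (F₀) ≤ a` implies `ν (X) ≤ d + a`. -/
theorem result (d e k q : ℕ) (hd : 1 ≤ d) (K : Type) [Field K]
    [Algebra ℂ K] [Algebra.EssFiniteType ℂ K] (hK : Algebra.trdeg ℂ K = (d + e : ℕ))
    (V : Submodule ℂ K) (hn : Module.finrank ℂ V = d + k + 1)
    (hV : Algebra.trdeg ℂ (ImageField V) = d)
    (φ : Fin q → K) (hφ0 : ∀ i, φ i ≠ 0) (hφ : Submodule.span ℂ (Set.range φ) = V)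
    (hγ : ¬ Splits V φ)
    (R : ℕ) (hR : R = d + k + 2 ∨ (Different (d + k + 3) φ ∧ R = d + k + 1))
    (X : Set (Place ℂ K)) (s : ℕ) (hs : R * ((k + 1) * (k + 2)) < 2 * s)
    (h : Multiplicities (d + e) V φ X s)
    (K' : Type) [Field K'] [Algebra ℂ K'] [Algebra K K'] [IsScalarTower ℂ K K'] (α : K')
    (hα : IsAlgebraic (Up K' (ImageField V)) α) (hαt : IntermediateField.adjoin K {α} = ⊤)
    (M : IntermediateField ℂ K') [Algebra.EssFiniteType ℂ M] (hM : Algebra.trdeg ℂ M = e)
    (hprod : IntermediateField.adjoin ℂ
      ({a | IsAlgebraic (Up K' (ImageField V)) a} ∪ (M : Set K')) = ⊤) :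
    ∀ a : ℕ, (KodairaGe e (Set.univ : Set (Place ℂ M)) a → KodairaGe (d + e) X (d + a)) ∧
      (NumLe ℂ M e (fun _ => False) a → NumLe ℂ K (d + e) (fun _ => False) (d + a)) := by
  have hαK : IsAlgebraic K α := by
    have h1 : ∀ z ∈ Up K' (ImageField V), ∃ a : K, algebraMap K K' a = z := by
      intro z hz
      unfold Up at hz
      rw [IntermediateField.mem_map] at hz
      obtain ⟨a, -, ha⟩ := hz
      exact ⟨a, ha⟩
    obtain ⟨p, hp0, hp⟩ := hα
    obtain ⟨p', hp'⟩ : ∃ p' : Polynomial K, p'.map (algebraMap K K') =
        p.map (algebraMap (Up K' (ImageField V)) K') := by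
      refine (Polynomial.mem_lifts _).1 ((Polynomial.lifts_iff_coeff_lifts _).2 fun i => ?_)
      rw [Polynomial.coeff_map]
      obtain ⟨a, ha⟩ := h1 _ (p.coeff i).2
      exact ⟨a, ha⟩
    refine ⟨p', ?_, ?_⟩
    · rintro rfl
      rw [Polynomial.map_zero] at hp'
      exact hp0 ((Polynomial.map_eq_zero _).1 hp'.symm)
    · rw [← Polynomial.eval_map_algebraMap, hp', Polynomial.eval_map_algebraMap]
      exact hp
  have hfin : FiniteDimensional K K' := by
    have h1 : FiniteDimensional K (IntermediateField.adjoin K {α}) :=
      IntermediateField.adjoin.finiteDimensional hαK.isIntegral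
    rw [hαt] at h1
    exact Module.Finite.of_surjective
      (IntermediateField.topEquiv : (⊤ : IntermediateField K K') ≃ₐ[K] K').toLinearMap
      (IntermediateField.topEquiv).surjective
  have htop : ∀ z : K', ∃ p : Polynomial K, z = Polynomial.aeval α p := by
    intro z
    have h1 : z ∈ IntermediateField.adjoin K {α} := by
      rw [hαt]
      trivial
    rw [← IntermediateField.mem_toSubalgebra,
      IntermediateField.adjoin_simple_toSubalgebra_of_isAlgebraic hαK,
      Algebra.adjoin_singleton_eq_range_aeval] at h1
    obtain ⟨p, hp⟩ := h1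
    exact ⟨p, hp.symm⟩
  have hgen : Pool.Agent.Y172.acl ℂ (Up K' (ImageField V) : Set K') ⊔ M = ⊤ := by
    rw [eq_top_iff, ← hprod, IntermediateField.adjoin_le_iff]
    rintro z (hz | hz)
    · refine (le_sup_left : Pool.Agent.Y172.acl ℂ (Up K' (ImageField V) : Set K') ≤ _) ?_
      rw [Pool.Agent.Y172.mem_acl, IntermediateField.adjoin_self]
      exact hz
    · exact (le_sup_right : M ≤ _) hz
  obtain ⟨-, hF⟩ := Pool.Agent.Q298.EF.iso_geo hK hV (α := α) hα htop hM hgen X
  refine fun a => ⟨fun hMa => ?_, fun hnum => ?_⟩
  swap
  · have hfinK' : Algebra.EssFiniteType K K' := inferInstance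
    have hess : Algebra.EssFiniteType ℂ K' := Algebra.EssFiniteType.comp ℂ K K'
    have hK' : Algebra.trdeg ℂ K' = (d + e : ℕ) := by
      have h0 : Algebra.IsAlgebraic K K' := inferInstance
      rw [← _root_.trdeg_add_eq ℂ K (A := K'), trdeg_eq_zero_iff.2 h0, add_zero, hK]
    have hLup : Algebra.trdeg ℂ (Up K' (ImageField V)) = d := by
      rw [← hV]
      exact (((ImageField V).equivMap (IsScalarTower.toAlgHom ℂ K K')).trdeg_eq).symm
    exact Pool.Agent.Q298.EF.num_down hK (Pool.Agent.Q298.IS.iso_num (M := M)
      (F := Pool.Agent.Y172.acl ℂ (Up K' (ImageField V) : Set K')) hM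
      (by rw [Pool.Agent.Q298.EF.trdeg_acl, hLup]) hK' (by rw [sup_comm]; exact hgen)
      (Pool.Agent.Y172.acl_closed _) hnum)
  obtain ⟨m₀, hm₀, η, hη, hne₀⟩ := hMa
  obtain ⟨m, hm, θ, hθ, hne⟩ := hF m₀ a hm₀ η
    (fun l => ⟨(hη l).1, fun P hP => (hη l).2 P (Set.mem_univ _) hP⟩) hne₀
  have hs' : (R : ℝ) * (((k : ℝ) + 1) * ((k : ℝ) + 2)) < 2 * (s : ℝ) := by exact_mod_cast hs
  obtain ⟨N, hN, ω, h5, h6⟩ := Pool.Agent.Q298.EF.lin_one hd hK hn hV hφ0 hφ hγ hR X
    (fun _ => 0) (fun _ => 0) (fun _ => 0) (fun _ _ => le_rfl) (fun _ _ => by simp) hs'
    (fun P hPX hPd a ha hb hc => by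
      obtain ⟨i, h5⟩ := h P hPX hPd a ha hb hc
      refine ⟨i, ?_⟩
      have h7 : (s : ℤ) ≤ P.ord (φ i) - a := by omega
      have h8 : ((s : ℤ) : ℝ) ≤ ((P.ord (φ i) - a : ℤ) : ℝ) := by exact_mod_cast h7
      simpa using h8) hm (θ := θ) hθ hne
  refine ⟨N, hN, ω, fun j => ⟨(h5 j).1, fun P hPX hPd D hD => ?_⟩, h6⟩
  rcases (h5 j).2 P hPX hPd D hD with h7 | h7
  · exact Or.inl h7
  · right
    have h8 : (0 : ℝ) ≤ (P.ord (ω j D) : ℝ) := by simpa using h7
    exact_mod_cast h8

end Pool.Agent.Results.MP_5ff3c6_ag.IsotrivialAbundance
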