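import Pool.Agent.Q73.MT.Kod

/-!
# Abundance for covers of products of projective spaces over arbitrary arrangements

For `i < r` let `ℓ i k = 0`, `k < q i`, be hyperplanes in projective `n i`-space, an arbitrary
arrangement, let `N` be the sum of the numbers `n i`, and let `X` be an abelian cover of the product
of the projective spaces which is branched over the hyperplanes, with multiplicities at least
`n i + 2` over the `i`-th factor (even `n i + 1`, up to the equality case, if the arrangement does
not consist of `n i + 2` hyperplanes in general position); at the points which lie over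
hyperplanes of several factors the multiplicities may be added. Then either one of the arrangements
is reducible, `X` is ruled and the canonical divisor is not pseudo-effective, or `κ = ν` for the
projective varieties with canonical singularities birational to `X`, and this number is the sum of the
dimensions `n i` of the factors which are not of Calabi-Yau type (`n i + 2` hyperplanes in general
position, and multiplicities exactly `n i + 2`).

The function-field language of the starting repository is used: `KodGe ℂ K N (fun _ => False) h`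
says that `κ ≥ h`, `NumLe ℂ K N (fun _ => False) h` that `ν ≤ h`: for every divisor `A` (generated by
a finite set of functions) there is `C` with `h⁰ (m K + A) ≤ C m ^ h` for all `m ≥ 1`;
`Psef ℂ K N (fun _ => False)` says that the canonical divisor of a smooth model is
pseudo-effective, and `Ruled ℂ K` that `X` is birational to `B × ℙ¹` for some `B`. `Cover`,
`Cover.Free`, `Cover.FunctionField` and `Reducible` are in `Pool/Agent/W602/Cov`.
-/

set_option autoImplicit false

open FF Module Pool.Agent.W602.Cov Pool.Agent.W602.GT

namespace Pool.Agent.Results.MP_5ff3c6_ag.MultiprojectiveAbundance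

/-- In suitable linear coordinates `X 0, ..., X n` each of the hyperplanes is one of `X j = 0` or
`X 0 + ... + X n = 0`. The arrangements with this property which are not reducible are, up to
repetitions, the arrangements of `n + 2` hyperplanes in general position. -/
def Simplicial {n q : ℕ} (ℓ : Fin q → Form n) : Prop :=
  ∃ X : Basis (Fin (n + 1)) ℂ (Form n), ∀ i,
    (∃ c : ℂ, ℓ i = c • ∑ j, X j) ∨ ∃ (j : Fin (n + 1)) (c : ℂ), ℓ i = c • X j

/-- The bound for one arrangement in projective `n`-space: `n + 2`, and even `n + 1` if the
arrangement is not simplicial (or if it is reducible). -/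
def Bound {n q : ℕ} (ℓ : Fin q → Form n) (d : ℕ) : Prop :=
  d = n + 2 ∨ (d = n + 1 ∧ (Reducible ℓ ∨ ¬ Simplicial ℓ))

/-- The arrangement consists of the `n + 2` hyperplanes `ℓ (c j) = 0`, which are in general
position: each `n + 1` of the forms are linearly independent. Hyperplanes may be listed several
times. -/
def GeneralPosition {n q : ℕ} (ℓ : Fin q → Form n) (c : Fin (n + 2) → Fin q) : Prop :=
  (∀ j : Fin (n + 2), LinearIndependent ℂ fun a => ℓ (c (j.succAbove a))) ∧
    ∀ i, ∃ (j : Fin (n + 2)) (t : ℂ), ℓ i = t • ℓ (c j)

variable {r N Q R : ℕ} {n q : Fin r → ℕ}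

/-- The sum of the maximal multiplicities `v i k / d i` is greater than `1`, or only one factor `i`
has multiplicities and they are at least `n i + 2`. -/
def Large (n d : Fin r → ℕ) (v : ∀ i, Fin (q i) → ℕ) : Prop :=
  (∃ k : ∀ i, Fin (q i), (1 : ℚ) < ∑ i, (v i (k i) : ℚ) / d i) ∨
    ∃ i, (∀ j, j ≠ i → v j = 0) ∧ ∃ k, n i + 2 ≤ v i k

/-- A linear form on the `i`-th factor as a linear form on projective `N`-space, which has the same
affine coordinates as the product of the projective `n i`-spaces; the number of the `j`-th affine
coordinate of the `i`-th factor is `e ⟨i, j⟩`. -/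
noncomputable def onFactor (e : ((i : Fin r) × Fin (n i)) ≃ Fin N) (i : Fin r)
    (φ : Form (n i)) : Form N :=
  φ ∘ₗ LinearMap.funLeft ℂ ℂ (Fin.cases 0 fun j => (e ⟨i, j⟩).succ)

/-- `X` is an abelian cover `y j ^ m j = ∏ i, ∏ k, ℓ i k (x i) ^ e' j i k` of the product of the
projective spaces: the hyperplane at infinity of the `i`-th factor is one of the `ℓ i k`, and the
degree of the equations in the coordinates `x i` of the `i`-th factor is divisible by `m j`. In
affine coordinates this is a cover of the affine part of projective `N`-space, and it is written in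
this way. -/
structure CoverOfProduct (X : Cover N Q R) (e : ((i : Fin r) × Fin (n i)) ≃ Fin N)
    (e' : ((i : Fin r) × Fin (q i)) ≃ Fin Q) (ℓ : ∀ i, Fin (q i) → Form (n i)) : Prop where
  forms : ∀ i k, X.ℓ (e' ⟨i, k⟩) = onFactor e i (ℓ i k)
  infinity : ∀ i, ∃ (k : Fin (q i)) (c : ℂ), ℓ i k = c • LinearMap.proj 0
  degrees : ∀ j i, X.m j ∣ ∑ k, X.e j (e' ⟨i, k⟩)

/-- The multiplicities of the cover `X`: whenever a germ of a curve in the product of the projective
spaces meets the hyperplanes `ℓ i k = 0` with multiplicities `v i k`, not all `0`, and these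
multiplicities are compatible with the equations of `X`, then `v` is large. -/
def Multiplicities (X : Cover N Q R) (e' : ((i : Fin r) × Fin (q i)) ≃ Fin Q)
    (ℓ : ∀ i, Fin (q i) → Form (n i)) (d : Fin r → ℕ) : Prop :=
  ∀ v : ∀ i, Fin (q i) → ℕ, (∃ i, v i ≠ 0) →
    (∀ i, ∃ x : Fin (n i + 1) → ℂ, x ≠ 0 ∧ ∀ k, v i k ≠ 0 → ℓ i k x = 0) →
    (∀ j, X.m j ∣ ∑ i, ∑ k, X.e j (e' ⟨i, k⟩) * v i k) → Large n d v

open scoped Classical in
/-- The `i`-th factor is of Calabi-Yau type: the `i`-th arrangement consists of `n i + 2` hyperplanes
in general position, and for each of them the multiplicity `n i + 2` for this hyperplane and `0` for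
all others is compatible with the equations of `X`. -/
def CalabiYau (X : Cover N Q R) (e' : ((i : Fin r) × Fin (q i)) ≃ Fin Q)
    (ℓ : ∀ i, Fin (q i) → Form (n i)) (i : Fin r) : Prop :=
  ∃ c : Fin (n i + 2) → Fin (q i), GeneralPosition (ℓ i) c ∧
    ∀ j k, X.m k ∣ ∑ s, X.e k (e' ⟨i, s⟩) *
      (if ∃ t : ℂ, ℓ i s = t • ℓ i (c j) then n i + 2 else 0)

open scoped Classical in
/-- Let `X` be an abelian cover, with function field `K`, of the product of `r` projective spaces of
dimensions `n i ≥ 1` over arbitrary arrangements, with large multiplicities (`Multiplicities`).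
**(1)** `κ ≥ 0` if and only if the canonical divisor is pseudo-effective, if and only if `X` is not
ruled, if and only if none of the arrangements is reducible.
**(2)** In this case `κ = ν` is the sum of the dimensions `n i` of the factors which are not of
Calabi-Yau type. -/
theorem result (r N : ℕ) (n q : Fin r → ℕ) (hr : 1 ≤ r) (hn : ∀ i, 1 ≤ n i)
    (ℓ : ∀ i, Fin (q i) → Form (n i)) (d : Fin r → ℕ) (hd : ∀ i, Bound (ℓ i) (d i))
    (Q R : ℕ) (X : Cover N Q R) (e : ((i : Fin r) × Fin (n i)) ≃ Fin N)
    (e' : ((i : Fin r) × Fin (q i)) ≃ Fin Q) (hX : CoverOfProduct X e e' ℓ) (hF : X.Free)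
    (h : Multiplicities X e' ℓ d) (K : Type) [Field K] [Algebra ℂ K] (z : Fin (N + 1) → K)
    (y : Fin R → K) (hK : X.FunctionField K z y) :
    [KodGe ℂ K N (fun _ => False) 0, Psef ℂ K N (fun _ => False), ¬ Ruled ℂ K,
      ∀ i, ¬ Reducible (ℓ i)].TFAE ∧
    ((∀ i, ¬ Reducible (ℓ i)) →
      KodGe ℂ K N (fun _ => False) (∑ i with ¬ CalabiYau X e' ℓ i, n i) ∧
      Pool.Agent.W619.TW.NumLe ℂ K N (fun _ => False) (∑ i with ¬ CalabiYau X e' ℓ i, n i)) := by
  refine Pool.Agent.Q73.MT.tri e e' hr hn X hF hK hX.forms hX.infinity hX.degrees d hd h _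
    fun i => ?_
  rw [Finset.mem_filter]
  simp only [Finset.mem_univ, true_and, not_not]
  exact Iff.rfl

end Pool.Agent.Results.MP_5ff3c6_ag.MultiprojectiveAbundance
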