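import Pool.Agent.H172.EG.TopG

/-!
# Effective abundance for quotients of products of hypersurfaces by diagonal groups

Let `F i`, `i = 1, ..., r`, be a form of degree `d i` in `n i + 1` variables whose zero set in the
projective `n i`-space is a smooth hypersurface, and let `H i` be the cyclic hypersurface
`w ^ (d i) = F i` in the projective `(n i + 1)`-space. Let `X` be a projective variety with terminal
singularities (or a projective manifold) which is birational to a quotient
`(H 1 × ... × H r) / G`, where `G` is any group of diagonal automorphisms
`w i ↦ ζ i * w i`, `ζ i ^ (d i) = 1`. Equivalently, the function field `K` of `X` is generated by the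
affine coordinates `x i j / x i 0` of the product of the projective `n i`-spaces and by roots `z j`,
`z j ^ (m j) = ∏ i, (F i (x i) / x i 0 ^ (d i)) ^ (a j i)`, where `m j` divides `a j i * d i`.

Let `B` be a bound for the degrees `d i` and for a common multiple `L` of the `m j` (for instance the
exponent of the Galois group of `K` over the function field of the product of the projective spaces, if
the `m j` are the orders of generators of its dual). Let `D ≥ 1` be divisible by all integers between
`1` and `r! * B ^ r`. So `D` depends only on the number of the factors, the degrees and the exponent of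
the group: not on the dimension of `X`, not on the forms `F i`.

The theorem: if `K_X` is pseudo-effective (for instance if `X` is minimal), then there are finitely many
sections `s b` of `D K_X` such that along every prime divisor `P` over `X` one of the `s b` computes the
asymptotic order of vanishing of `K_X`: the order along `P` of every section of `m K_X`, `m ≥ 1`, is at
least `m / D` times the order of `s b`, and for every divisor `A` there is a constant `c` such that the
order along `P` of every section of `m K_X + A`, `m ≥ 1`, is at least `m / D` times the order of `s b`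
minus `c / D`. In other words, on a model `Y` on which the moving part `M` of the linear system
generated by the `s b` is base point free, `D K_Y = M + E`, the divisor `E / D` is the negative part and
`M / D` is the positive part of the Zariski decomposition of `K_Y` (in the sense of Nakayama and in the
sense of Cutkosky, Kawamata and Moriwaki): the positive part is semiample, and this holds already for
its multiple by `D`.

In particular (this consequence is not formalised) if `X` is a minimal variety and `D K_X` is a Cartier
divisor, then `D K_X` is base point free: it is generated by the sections `s b`, because the asymptotic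
orders of vanishing of the nef divisor `K_X` are zero along all prime divisors over `X`.

The sections `s b` are the pluricanonical forms
`∏ i, x i (j i) ^ (e i) * F i ^ (w i - D) * Ω ^ D`, where `Ω` is the canonical form of the product of the
projective spaces, `e i = D * d i - D * (n i + 1) - d i * w i`, for the lattice points `w` with
`e i ≥ 0` and `∑ i, v i * w i ≥ D` for all admissible `v`: the vectors `v ≠ 0` of nonnegative integers
with `m j ∣ ∑ i, a j i * v i` for all `j`. The proof determines the sections of `m K_X + A`, up to a
bounded error, by places over `X` given by the admissible vectors, and compares the two by linear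
programming; the index `D` clears the denominators of the vertices of the polytope.

Sections of `m K_X + A` are functions of `N = dim X` rational vector fields, with a condition at all
divisorial places of `K`, so that they are the sections on every smooth projective model of `K`.
-/

set_option autoImplicit false

open FF MvPolynomial Pool.Agent.W602.GT

namespace Pool.Agent.Results.MP_5ff3c6_ag.SemiamplePositivePart

/-- The form `F` has no singular zeros: its partial derivatives have no common zero but `0`. -/
def Smooth {n : ℕ} (F : MvPolynomial (Fin (n + 1)) ℂ) : Prop :=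
  ∀ x : Fin (n + 1) → ℂ, x ≠ 0 → ∃ l, eval x (pderiv l F) ≠ 0

/-- The affine coordinates of the product of the projective spaces. -/
noncomputable def affine {r : ℕ} {n : Fin r → ℕ} {K : Type} [Field K]
    (x : ∀ i, Fin (n i + 1) → K) (b : (i : Fin r) × Fin (n i)) : K :=
  x b.1 b.2.succ / x b.1 0

section sections

/-- `ω` is a section of `m K_X + j A`: a rational section of the `m`-th power of the canonical
bundle (`IsPluri`: a function of `N` rational vector fields which is multiplied by `det B ^ m` under
a linear substitution `B`) whose order on the vector fields which are regular at `P` is at least `j`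
times the order of one of the functions in `S`, for all prime divisors `P` over `X` (all divisorial
places `P` of `K`). Here `A` is the divisor which is generated by the finite set `S` of functions;
`A = 0` if `S = {1}`. -/
def IsSection {K : Type} [Field K] [Algebra ℂ K] (N : ℕ) (S : Finset K) (m j : ℕ)
    (ω : (Fin N → Derivation ℂ K K) → K) : Prop :=
  IsPluri m ω ∧ ∀ P : Place ℂ K, Divisorial N P → ∀ D : Fin N → Derivation ℂ K K,
    (∀ c, DerReg P (D c)) → ω D = 0 ∨ ∃ s ∈ S, s ≠ 0 ∧ j * P.ord s ≤ P.ord (ω D)

variable (N : ℕ) (K : Type) [Field K] [Algebra ℂ K]

/-- There are finitely many sections `s b` of `D K_X` such that for every prime divisor `P` over `X`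
one of them has the following two properties. The order along `P` of every section `ω` of `m K_X`,
`m ≥ 1`, is at least `m / D` times the order of `s b`. For every divisor `A` (generated by `S`) there
is `c` such that the order along `P` of every section `ω` of `m K_X + A`, `m ≥ 1`, is at least
`m / D` times the order of `s b` minus `c / D`. (The orders of `s b` and of `ω` are compared at the
same vector fields `v`; the inequalities do not depend on `v`.) -/
def AsymptoticOrdersBy (D : ℕ) : Prop :=
  ∃ (q : ℕ) (s : Fin q → (Fin N → Derivation ℂ K K) → K), (∀ b, IsSection N {1} D 1 (s b)) ∧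
    ∀ P : Place ℂ K, Divisorial N P → ∃ b,
      (∀ (m : ℕ) (ω : (Fin N → Derivation ℂ K K) → K), 1 ≤ m → IsSection N {1} m 1 ω →
        ∀ v, ω v ≠ 0 → s b v ≠ 0 ∧ m * P.ord (s b v) ≤ D * P.ord (ω v)) ∧
      ∀ S : Finset K, ∃ c : ℕ, ∀ (m : ℕ) (ω : (Fin N → Derivation ℂ K K) → K), 1 ≤ m →
        IsSection N S m 1 ω → ∀ v, ω v ≠ 0 →
          s b v ≠ 0 ∧ m * P.ord (s b v) ≤ D * P.ord (ω v) + c

/-- `K_X` is pseudo-effective: there is a divisor `A` such that for all `M` a positive multiple of
`M K_X + A` is effective. -/
def Pseudoeffective : Prop :=
  ∃ S : Finset K, ∀ M : ℕ, ∃ j : ℕ, 1 ≤ j ∧ ∃ ω : (Fin N → Derivation ℂ K K) → K, ω ≠ 0 ∧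
    IsSection N S (j * M) j ω

end sections

/-- **The positive part of the canonical divisor is semiample, with an explicit index.** Let `X` be a
projective variety with terminal singularities which is birational to an abelian cover of the product
of the projective `n i`-spaces which is branched along smooth hypersurfaces `F i = 0` of the factors
(that is, to a quotient of the product of the cyclic hypersurfaces `w ^ (d i) = F i` by a group of
diagonal automorphisms), and let `K` be the function field of `X`. Let `B ≥ d i` for all `i`, let
`L ≤ B` be a common multiple of the `m j`, and let `D ≥ 1` be divisible by all integers between `1` and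
`r! * B ^ r`. If `K_X` is pseudo-effective, then finitely many sections of `D K_X` compute the orders
of vanishing of the sections of `m K_X`, and asymptotically those of `m K_X + A`, along all prime
divisors over `X`. -/
theorem result (r N R : ℕ) (n d : Fin r → ℕ) (hr : 1 ≤ r) (hn : ∀ i, 1 ≤ n i)
    (hd : ∀ i, 1 ≤ d i) (hN : N = ∑ i, n i)
    (F : ∀ i, MvPolynomial (Fin (n i + 1)) ℂ) (hF : ∀ i, (F i).IsHomogeneous (d i))
    (hs : ∀ i, Smooth (F i)) (m : Fin R → ℕ) (hm : ∀ j, 1 ≤ m j) (a : Fin R → Fin r → ℕ)
    (hdiv : ∀ j i, m j ∣ a j i * d i)
    (K : Type) [Field K] [Algebra ℂ K] (x : ∀ i, Fin (n i + 1) → K) (hx0 : ∀ i, x i 0 ≠ 0)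
    (hbas : IsTranscendenceBasis ℂ (affine x)) (z : Fin R → K)
    (hz : ∀ j, z j ^ m j = ∏ i, (aeval (x i) (F i) / x i 0 ^ d i) ^ a j i)
    (hgen : IntermediateField.adjoin ℂ (Set.range (affine x) ∪ Set.range z) = ⊤)
    (B L D : ℕ) (hdB : ∀ i, d i ≤ B) (hL : 1 ≤ L) (hLB : L ≤ B) (hmL : ∀ j, m j ∣ L) (hD : 1 ≤ D)
    (hDd : ∀ i : ℕ, 1 ≤ i → i ≤ r.factorial * B ^ r → i ∣ D) (hps : Pseudoeffective N K) :
    AsymptoticOrdersBy N K D := by
  classical
  obtain ⟨h1, -, -⟩ := Pool.Agent.Y169.CH.main hr hn hN hd hF hs hx0 hbas hm hdiv hz hgen
    (Finset.univ.filter fun i => ∀ v, Pool.Agent.Y169.CH.Adm m a v →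
      ∑ s, (((d s : ℚ) - n s - 1) / d s) * v s = 1 → v i = 0) (fun i => by
      simp only [Finset.mem_filter, Finset.mem_univ, true_and])
  have hpos := h1.1 hps
  obtain ⟨N', rfl⟩ : ∃ N', N = N' + 1 := by
    have h1 : n ⟨0, hr⟩ ≤ ∑ i, n i :=
      Finset.single_le_sum (f := n) (fun _ _ => Nat.zero_le _) (Finset.mem_univ _)
    have h2 := hn ⟨0, hr⟩
    exact ⟨N - 1, by omega⟩
  let e : ((i : Fin r) × Fin (n i)) ≃ Fin (N' + 1) :=
    finSigmaFinEquiv.trans (finCongr hN.symm)
  have hbas' : IsTranscendenceBasis ℂ (Pool.Agent.TH756.PR.uu e x) :=
    Pool.Agent.TH756.PR.basis_uu e hbas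
  have hrange : Set.range (Pool.Agent.TH756.PR.uu e x) = Set.range (affine x) := by
    ext z
    constructor
    · rintro ⟨b, rfl⟩
      exact ⟨e.symm b, rfl⟩
    · rintro ⟨a, rfl⟩
      refine ⟨e a, ?_⟩
      change Pool.Agent.TH756.PR.aff x (e.symm (e a)) = _
      rw [e.symm_apply_apply]
      rfl
  obtain ⟨Θ, hM, ha⟩ := Pool.Agent.H172.EG.exists_nc e hn hx0 hbas' hd hs hF hm hz hdiv
    (by rw [hrange]; exact hgen)
  obtain ⟨q, s, hs1, hs2⟩ := Pool.Agent.H172.EG.top Θ hL (by rw [hM]; exact hmL) hdB hLB hDd hD
    (by rw [hM, ha]; exact hpos)
  exact ⟨q, s, hs1, fun P _ => hs2 P⟩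

end Pool.Agent.Results.MP_5ff3c6_ag.SemiamplePositivePart
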