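import Pool.Agent.Y191.LcRam
import Pool.Agent.Q298.JS.Tow

/-!
# Abundance for fibrations in moving log canonical arrangements over the image of several powerful
linear systems

Let `X` be a minimal variety, or more generally let `(X, Δ)` be a projective klt pair, `Δ` a
`ℚ`-divisor, and let `|V_1|, ..., |V_b|` be linear systems on `X` without fixed components. Let `Y_j`
be the image of the rational map of `X` to the product of the first `j` projective spaces, a variety
of the dimension `d_1 + ... + d_j` with `d_j ≥ 1`; it need not be a product. Let `V_j` be of dimension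
`n_j = d_j + k_j`. Suppose:

* (position) for each `j`, the images of the general fibres of `X ⇢ Y_{j-1}` (of the Stein
  factorization) in the projective space of `V_j` are nondegenerate;
* (the members) `V_j` is spanned by finitely many members `D_i` of `|V_j|`, in arbitrary position, and
  `V_j` is not the direct sum of two nonzero subspaces such that each `D_i` belongs to one of them; at
  every prime divisor `P` of `X` which is a component of some `D_i`, some `D_i'` has the multiplicity
  at least `σ_j (1 - Δ_j,P)`, where `2 σ_j > R_j (k_j + 1) (k_j + 2)` with `R_j = n_j + 2`, or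
  `R_j = n_j + 1` if there are at least `n_j + 3` different members, and the `Δ_j` are effective with
  `∑ Δ_j ≤ Δ` (so `Δ_j = 0` if `Δ = 0`);
* (the fibres) let `Y = Y_b`. There is a correspondence between `X` and a relative product of
  projective spaces:
  a variety `X'` with a generically finite map `X' ⇢ X` (any finite extension `K'` of the function
  field `K`, ramified anywhere) and a generically finite map over `Y` of `X'` to
  `Y' × P^{r_1} × ... × P^{r_c}`, `r_j ≥ 1`, `Y'` finite over `Y`, and in each `P^{r_j}` there are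
  any hyperplanes `A j i = 0` which move with the point of `Y'`, with weights `w j i` in `[0, 1]`
  such that the arrangement is log canonical: the sum of the weights of hyperplanes with a common
  point is at most the codimension of their intersection. If `Q` is a place of `K'` over a prime
  divisor `P` of `X` which dominates `Y`, with ramification index `ε`, and `e j i` are the
  multiplicities of the hyperplanes at `Q`, not all zero, then `ε (1 - Δ_P)` is at most
  `∑ (mx_j - ∑ w j i e j i)`, where `mx_j` is the greatest sum of `r_j + 1` of the `e j i` whose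
  hyperplanes have no common point (`ε (1 - Δ_P) ≤ 1`, if all `e j i` are zero); and if `Q` is a place
  of `K'` over a prime divisor of `P^{r_1} × ... × P^{r_c}` over `Y`, with ramification index `ρ`, and
  with ramification index `ε` over the place `P` of `K`, then `ρ - ε α ≤ ∑ w j i e j i`, where `α` is
  the log discrepancy of `(X, Δ)` along `P` (it is `1 - Δ_P` if `P` is a prime divisor of `X`).

There is no condition at the divisors of `X` which do not dominate `Y`, except for the multiplicities
of the linear systems. Then `κ(K_X + Δ) = ν(K_X + Δ)`: `K_X + Δ` is pseudo-effective if and only if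
`∑ i, w j i ≥ r_j + 1` for all `j`; then both dimensions are equal to `dim Y` plus the sum of the
`r_j` with `∑ i, w j i > r_j + 1`; otherwise they are `-∞`. By Kawamata, `κ = ν` implies that `K_X` is
semiample if `X` is minimal.

For instance the generic fibre may be a quotient by a finite group of a product of covers of
projective spaces which are ramified over arrangements, with the boundary given by the ramification.
The monodromy over `Y` may be arbitrary, `Δ` may have any vertical and horizontal components. For
`b = 1` this is `Pool.Agent.Results.MP_badc2d_ag.LogCanonicalFibres`. The linear systems can be combined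
to the one linear system of their products, but for it the condition on the multiplicities would be
much stronger (`n + 1` is the product of the `n_j + 1`, and a component of a member of one system only
must have the high multiplicity for the combined system).

The language and the definitions of `Pool.Agent.Y172` are used: `X` is given by the homogeneous
coordinates `y` of its generic point, with values in the function field `K` of `X`; the prime divisors
of `X` are places `P` of `K`, `P.ord` is the order along `P`. A linear system is given by a finite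
dimensional space `V` of rational functions: if `a` is the minimum of the orders at `P` of the members
of `V` then the multiplicity of `P` in the divisor of the system which is given by `f ∈ V` is
`P.ord f - a`. `kodairaDim` and `numericalDim` are the literal definitions of the Kodaira dimension
and of the numerical dimension of `K_X + Δ`, the latter with respect to any effective integral
divisor `A`. `acl ℂ S` is the field of the elements which are algebraic over `ℂ(S)`.

Proof. The forms along the fibres of `X ⇢ Y` are those of `Pool.Agent.Y191.lc_low`. For `j = b, ..., 1`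
the forms along the fibres of `X ⇢ Y_j` are multiplied with the generalised Wronskians of `V_j` with
respect to vector fields which are tangent to the fibres of `X ⇢ Y_{j-1}`; these do not vanish, as the
members are linearly independent over the algebraic closure of the function field of `Y_{j-1}`, and
the products are forms along the fibres of `X ⇢ Y_{j-1}` with the right orders at all prime divisors
of `X`, including the vertical ones (`Pool.Agent.Q298.JS.lin_stage`). The upper bound is
`Pool.Agent.Y191.lc_ab`.
-/

set_option autoImplicit false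

open FF Pool.Agent.W602.GT Pool.Agent.Y172 Pool.Agent.Y191

namespace Pool.Agent.Results.MP_5ff3c6_ag.SeveralSystemsArrangements

section

variable {K : Type} [Field K] [Algebra ℂ K] {N : ℕ}

/-- `(X, Δ)` is a projective pair of dimension `n`: `X` is normal, with generic point `y`, and `Δ` is
an effective `ℚ`-divisor. -/
def IsPair (y : Fin (N + 1) → K) (n : ℕ) (Δ : Place ℂ K → ℚ) : Prop :=
  NormalModel y ∧ Algebra.trdeg ℂ K = n ∧ Effective y Δ

/-- The function field of the image `Y_j` of `X` under the first `j` linear systems: the field which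
is generated by the quotients of the members of each of them. -/
noncomputable def ImageField {c : ℕ} (V : Fin c → Submodule ℂ K) (j : ℕ) :
    IntermediateField ℂ K :=
  IntermediateField.adjoin ℂ {y : K | ∃ i : Fin c, (i : ℕ) < j ∧ ∃ f ∈ V i, ∃ g ∈ V i, y = f / g}

/-- `V` is the direct sum of two nonzero subspaces such that each `φ i` belongs to one of them. -/
def Splits {q : ℕ} (V : Submodule ℂ K) (φ : Fin q → K) : Prop :=
  ∃ V1 V2 : Submodule ℂ K, V1 ≠ ⊥ ∧ V2 ≠ ⊥ ∧ Disjoint V1 V2 ∧ V1 ⊔ V2 = V ∧
    ∀ i, φ i ∈ V1 ∨ φ i ∈ V2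

/-- There are `r` members `φ i` of which no two are proportional. -/
def Different (r : ℕ) {q : ℕ} (φ : Fin q → K) : Prop :=
  ∃ τ : Fin r → Fin q, ∀ i j, i ≠ j → ∀ t : ℂ, φ (τ i) ≠ t • φ (τ j)

/-- The condition on the multiplicities: if the prime divisor `P` of `X` is a component of one of the
divisors `D i` (the order of `φ i` at `P` is not the minimum `a` of the orders of the members of
`V`), then some `D i` has multiplicity at least `σ (1 - Δ_P)` at `P`. -/
def Multiplicities (y : Fin (N + 1) → K) (Δ : Place ℂ K → ℚ) {q : ℕ} (V : Submodule ℂ K)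
    (φ : Fin q → K) (σ : ℚ) : Prop :=
  ∀ P, IsPrimeDivisor y P → ∀ a : ℤ, (∀ f ∈ V, f = 0 ∨ a ≤ P.ord f) →
    (∃ f ∈ V, f ≠ 0 ∧ P.ord f = a) → (∃ i, P.ord (φ i) ≠ a) →
    ∃ i, σ * (1 - Δ P) ≤ ((P.ord (φ i) - a : ℤ) : ℚ)

/-- The hypotheses on the linear systems `V i` on the pair `(X, Δ)`. The dimension of `Y_j` is the sum
of the `d i` with `i < j`, `V i` has the dimension `d i + k i` as a linear system and, by
`nondegenerate`, this remains true for the space which it spans over the algebraic closure of the
function field of the image under the previous linear systems. -/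
structure PowerfulSystems (y : Fin (N + 1) → K) (Δ : Place ℂ K → ℚ) {c : ℕ} (d k : Fin c → ℕ)
    (V : Fin c → Submodule ℂ K) : Prop where
  pos : ∀ i, 1 ≤ d i
  dim : ∀ j ≤ c, Algebra.trdeg ℂ (ImageField V j) =
    (∑ i ∈ Finset.univ.filter (fun i : Fin c => (i : ℕ) < j), d i : ℕ)
  rank : ∀ i, Module.finrank ℂ (V i) = d i + k i + 1
  nondegenerate : ∀ i : Fin c, Module.finrank (acl ℂ (ImageField V i : Set K))
    (Submodule.span (acl ℂ (ImageField V i : Set K)) (V i : Set K)) = d i + k i + 1
  members : ∃ Δ' : Fin c → Place ℂ K → ℚ,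
    (∀ P, IsPrimeDivisor y P → (∀ i, 0 ≤ Δ' i P) ∧ ∑ i, Δ' i P ≤ Δ P) ∧
    ∀ i, ∃ (q : ℕ) (φ : Fin q → K) (R : ℕ) (σ : ℚ), (∀ j, φ j ≠ 0) ∧
      Submodule.span ℂ (Set.range φ) = V i ∧ ¬ Splits (V i) φ ∧
      (R = d i + k i + 2 ∨ (Different (d i + k i + 3) φ ∧ R = d i + k i + 1)) ∧
      (R * ((k i + 1) * (k i + 2)) : ℚ) < 2 * σ ∧ Multiplicities y (Δ' i) (V i) φ σ

/-- There is a finite extension `K'` of `K`, and the `u ⟨j, k⟩` are the affine coordinates of a
generically finite map, over the variety with the function field `L`, of a variety with the function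
field `K'` to a product of projective spaces of dimensions `r j ≥ 1`; `A j i` are the coefficients of
hyperplanes, algebraic over `L`, with weights `w j i` in `[0, 1]` such that the arrangement is log
canonical (`LcArr`). The pull back of `K_X + Δ` to `K'` is compared with the pull back of the
canonical divisor of the relative product plus `∑ w j i (A j i = 0)` at the places over the prime
divisors of `X` which are trivial on `L` (`LcHor`) and at the places over the prime divisors of the
product (`Cor`). -/
def Fibres (y : Fin (N + 1) → K) (n : ℕ) (Δ : Place ℂ K → ℚ) (L : IntermediateField ℂ K) {c : ℕ}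
    (r s : Fin c → ℕ) (w : ∀ j, Fin (s j) → ℚ) : Prop :=
  (∀ j, 1 ≤ r j ∧ ∀ i, 0 ≤ w j i ∧ w j i ≤ 1) ∧
  ∃ (K' : Type) (_ : Field K') (_ : Algebra ℂ K') (_ : Algebra K K') (_ : IsScalarTower ℂ K K')
    (_ : FiniteDimensional K K') (A : ∀ j, Fin (s j) → Fin (r j + 1) → K')
    (u : (Σ j, Fin (r j)) → K'),
    LcArr (upF K' L) A w ∧ IsTranscendenceBasis (upF K' L) u ∧
    LcHor L A u w {P | IsPrimeDivisor y P} (fun P => (Δ P : ℝ)) ∧
    Cor y n Δ (upF K' L) A u w

/-- the sum of the dimensions `r j` for which the sum of the weights is greater than `r j + 1` -/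
def big {c : ℕ} (r s : Fin c → ℕ) (w : ∀ j, Fin (s j) → ℚ) : ℕ :=
  ∑ j, if (r j + 1 : ℚ) < ∑ i, w j i then r j else 0

/-- If the sums of the weights are at least `r j + 1` then the Kodaira dimension and the numerical
dimension (with respect to any effective integral divisor `A`) of `K_X + Δ` are `d + big`; otherwise
both are `-∞`. -/
def Abundance (y : Fin (N + 1) → K) (n d : ℕ) (Δ : Place ℂ K → ℚ) {c : ℕ} (r s : Fin c → ℕ)
    (w : ∀ j, Fin (s j) → ℚ) : Prop :=
  ((∀ j, (r j + 1 : ℚ) ≤ ∑ i, w j i) → kodairaDim y n Δ = ((d + big r s w : ℕ) : WithBot ℕ) ∧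
    ∀ A, Effective y A → Integral y A → numericalDim y n Δ A = ((d + big r s w : ℕ) : EReal)) ∧
  ((∃ j, ∑ i, w j i < (r j + 1 : ℚ)) → kodairaDim y n Δ = ⊥ ∧
    ∀ A, Effective y A → numericalDim y n Δ A = ⊥)

end

theorem exists_idx {c : ℕ} (r q : Fin c → ℕ) (w : ∀ j, Fin (q j) → ℚ) :
    ∃ κ : Fin (big r q w) → Σ j, Fin (r j), Function.Injective κ ∧
      ∀ i, (r (κ i).1 + 1 : ℚ) < ∑ i', w (κ i).1 i' := by
  classical
  have h1 : Fintype.card {x : Σ j, Fin (r j) // (r x.1 + 1 : ℚ) < ∑ i, w x.1 i} = big r q w := by
    rw [Fintype.card_subtype, Finset.card_filter, Fintype.sum_sigma]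
    refine Finset.sum_congr rfl fun j _ => ?_
    change ∑ _k : Fin (r j), (if (r j + 1 : ℚ) < ∑ i, w j i then 1 else 0) = _
    rw [Finset.sum_const, Finset.card_univ, Fintype.card_fin, smul_eq_mul, mul_ite, mul_one,
      mul_zero]
  let φ := Fintype.equivFinOfCardEq h1
  exact ⟨fun i => (φ.symm i : Σ j, Fin (r j)), fun a b hab => φ.symm.injective (Subtype.ext hab),
    fun i => (φ.symm i).2⟩

theorem abundance_of {K : Type} [Field K] [Algebra ℂ K] {N d c : ℕ} {y : Fin (N + 1) → K}
    {Δ : Place ℂ K → ℚ} {r s : Fin c → ℕ} {w : ∀ j, Fin (s j) → ℚ} {L : IntermediateField ℂ K}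
    (hy : IsPair y (d + ∑ j, r j) Δ) {K' : Type} [Field K'] [Algebra ℂ K']
    [Algebra K K'] [IsScalarTower ℂ K K'] [FiniteDimensional K K']
    {A : ∀ j, Fin (s j) → Fin (r j + 1) → K'}
    {u : (Σ j, Fin (r j)) → K'} (hw : ∀ j, 1 ≤ r j ∧ ∀ i, 0 ≤ w j i ∧ w j i ≤ 1)
    (hA : LcArr (upF K' L) A w) (hu : IsTranscendenceBasis (upF K' L) u)
    (hC : Cor y (d + ∑ j, r j) Δ (upF K' L) A u w)
    (hK : (∀ j, (r j + 1 : ℚ) ≤ ∑ i, w j i) → KodairaGe (d + ∑ j, r j) {P | IsPrimeDivisor y P}
      (fun P => (Δ P : ℝ)) (d + big r s w)) : Abundance y (d + ∑ j, r j) d Δ r s w := by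
  obtain ⟨h1, h2⟩ := lc_ab hy.1 hy.2.1 hy.2.2 hA.1 hu (fun j => (hw j).1)
    (fun j i => ((hw j).2 i).1) (fun j i => ((hw j).2 i).2) hC
  refine ⟨fun h => h2 (d + big r s w) h ?_ (hK h), h1⟩
  rw [add_assoc, big, ← Finset.sum_add_distrib]
  congr 1
  refine Finset.sum_congr rfl fun j _ => ?_
  rcases lt_or_eq_of_le (h j) with h3 | h3
  · rw [if_pos h3, if_neg h3.ne', add_zero]
  · rw [if_neg (not_lt.2 h3.symm.le), if_pos h3.symm, zero_add]

/-- **Abundance.** Let `(X, Δ)` be a projective pair with generic point `y`, of dimension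
`d + ∑ j, r j`, where `d` is the sum of the `d i`; `V i` linear systems on `X` with `PowerfulSystems`,
whose images define a rational map of `X` to a variety `Y` of dimension `d`. Let the fibres of `X`
over `Y` be as in `Fibres`. Then the Kodaira dimension and the numerical dimension of `K_X + Δ` are
equal: they are `d` plus the sum of the `r j` with `r j + 1 < ∑ i, w j i`, if `r j + 1 ≤ ∑ i, w j i`
for all `j`, and `-∞` otherwise. -/
theorem result (b N c : ℕ) (d k : Fin b → ℕ) (r s : Fin c → ℕ) (K : Type) [Field K] [Algebra ℂ K]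
    (y : Fin (N + 1) → K) (Δ : Place ℂ K → ℚ) (hy : IsPair y (∑ i, d i + ∑ j, r j) Δ)
    (V : Fin b → Submodule ℂ K) (hV : PowerfulSystems y Δ d k V)
    (w : ∀ j, Fin (s j) → ℚ)
    (hF : Fibres y (∑ i, d i + ∑ j, r j) Δ (ImageField V b) r s w) :
    Abundance y (∑ i, d i + ∑ j, r j) (∑ i, d i) Δ r s w := by
  classical
  obtain ⟨hw, K', _, _, _, _, _, A, u, hA, hu, hH, hC⟩ := hF
  obtain ⟨Δ', hΔ', hmem⟩ := hV.members
  have htr : Algebra.trdeg ℂ (ImageField V b) = (∑ i, d i : ℕ) := by
    have h1 := hV.dim b le_rfl
    rwa [Pool.Agent.Q298.JS.sum_filter_all] at h1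
  refine abundance_of hy hw hA hu hC fun hws => ?_
  obtain ⟨κ, hκ, hκs⟩ := exists_idx r s w
  have hKe : Algebra.trdeg (ImageField V b) K = (∑ j, r j : ℕ) :=
    Pool.Agent.Q298.JS.trdeg_over htr hy.2.1
  -- the boundary along the divisors which dominate the base
  let δ₂ : Place ℂ K → ℝ := fun P =>
    if ∀ f ∈ ImageField V b, f ≠ 0 → P.ord f = 0 then (Δ P : ℝ) else 0
  let δ₁ : Fin b → Place ℂ K → ℝ := fun i P =>
    if ∀ f ∈ ImageField V b, f ≠ 0 → P.ord f = 0 then 0 else (Δ' i P : ℝ)
  have hΔ0 : ∀ P, IsPrimeDivisor y P → (0 : ℝ) ≤ Δ P := fun P hP => by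
    exact_mod_cast hy.2.2.1 P hP
  have hδ₂ : ∀ P ∈ {P | IsPrimeDivisor y P}, 0 ≤ δ₂ P := by
    intro P hP
    change (0 : ℝ) ≤ if ∀ f ∈ ImageField V b, f ≠ 0 → P.ord f = 0 then (Δ P : ℝ) else 0
    split_ifs
    · exact hΔ0 P hP
    · exact le_rfl
  have hH' : LcHor (ImageField V b) A u w {P | IsPrimeDivisor y P} δ₂ := by
    intro P hP htr Q ε hQ c' e' ho
    have h1 := hH P hP htr Q ε hQ c' e' ho
    have h2 : δ₂ P = Δ P := if_pos htr
    rw [h2]
    exact h1
  have hS : Pool.Agent.Q298.JS.Sys (∑ i, d i + ∑ j, r j) {P | IsPrimeDivisor y P} d k V δ₁ := by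
    refine ⟨hV.pos, hV.dim, hV.rank, hV.nondegenerate, fun i => ?_⟩
    obtain ⟨q, φ, R, σ, h1, h2, h3, h4, h5, h6⟩ := hmem i
    refine ⟨q, φ, R, σ, h1, h2, h3, h4, by exact_mod_cast h5, fun P hP _ a ha hb hc => ?_⟩
    have h7 : δ₁ i P = Δ' i P := by
      refine if_neg fun htr => ?_
      obtain ⟨j, hj⟩ := hc
      obtain ⟨f, hf, hf0, hfa⟩ := hb
      have hfi : φ j ∈ V i := h2 ▸ Submodule.subset_span ⟨j, rfl⟩
      have h8 : φ j / f ∈ ImageField V b :=
        IntermediateField.subset_adjoin ℂ _ ⟨i, i.2, φ j, hfi, f, hf, rfl⟩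
      have h9 := htr _ h8 (div_ne_zero (h1 j) hf0)
      rw [P.ord_div (h1 j) hf0] at h9
      exact hj (by omega)
    obtain ⟨j, hj⟩ := h6 P hP a ha hb hc
    refine ⟨j, ?_⟩
    rw [h7]
    exact_mod_cast hj
  obtain ⟨M, hM, θ, hθ, hne⟩ := lc_low (N := ∑ i, d i + ∑ j, r j) hKe hA finSigmaFinEquiv hu
    (fun j i => ((hw j).2 i).1) hws hκ hκs hδ₂ hH'
  refine hS.main hy.2.1 (δ₂ := δ₂) (δ := fun P => (Δ P : ℝ)) ?_ ?_ ⟨M, hM, θ, hθ, hne⟩
  · intro i P hP
    change (0 : ℝ) ≤ if ∀ f ∈ ImageField V b, f ≠ 0 → P.ord f = 0 then 0 else (Δ' i P : ℝ)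
    split_ifs
    · exact le_rfl
    · exact_mod_cast (hΔ' P hP).1 i
  · intro P hP
    change (∑ i, if ∀ f ∈ ImageField V b, f ≠ 0 → P.ord f = 0 then 0 else (Δ' i P : ℝ)) +
      (if ∀ f ∈ ImageField V b, f ≠ 0 → P.ord f = 0 then (Δ P : ℝ) else 0) ≤ (Δ P : ℝ)
    split_ifs
    · rw [Finset.sum_const_zero, zero_add]
    · rw [add_zero]
      exact_mod_cast (hΔ' P hP).2

end Pool.Agent.Results.MP_5ff3c6_ag.SeveralSystemsArrangements
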